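import Pool.Agent.Helper37_BSig.Stmts

/-!
# DerJoin (squad BSIG, MP_b3d4e2_lc)
-/

namespace Pool.Agent.BSig.H92

open Filter Cardinal Pool.Agent.BSig

theorem two_mk : (2 : MM) = mk (fun _ => 2) (bdd_const 2) := by
  have : (2 : MM) = 1 + 1 := by norm_num
  rw [this, mk_one, mk_add]

theorem two_inj {x y : MM} (h : 2 * x = 2 * y) : x = y := by
  obtain ⟨f, hf, rfl⟩ := exists_mk x; obtain ⟨g, hg, rfl⟩ := exists_mk y
  rw [two_mk, mk_mul, mk_mul, mk_eq] at h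
  rw [mk_eq]
  filter_upwards [h] with n hn
  omega

theorem odd_inj {x y : MM} (h : 2 * x + 1 = 2 * y + 1) : x = y := by
  obtain ⟨f, hf, rfl⟩ := exists_mk x; obtain ⟨g, hg, rfl⟩ := exists_mk y
  rw [two_mk, mk_mul, mk_mul, mk_one, mk_add, mk_add, mk_eq] at h
  rw [mk_eq]
  filter_upwards [h] with n hn
  omega

theorem par {x y : MM} : 2 * x ≠ 2 * y + 1 := by
  intro h
  obtain ⟨f, hf, rfl⟩ := exists_mk x; obtain ⟨g, hg, rfl⟩ := exists_mk y
  rw [two_mk, mk_mul, mk_mul, mk_one, mk_add, mk_eq] at h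
  obtain ⟨n, hn⟩ := h.exists
  omega

theorem le_two (x : MM) : x ≤ 2 * x := by
  rw [two_mul]; exact le_add_left' _ _

theorem mem_jn_even {A B : Set MM} {z : MM} : 2 * z ∈ jn A B ↔ z ∈ A := by
  constructor
  · rintro (⟨w, hw, h⟩ | ⟨w, hw, h⟩)
    · rw [two_inj h]; exact hw
    · exact absurd h par
  · intro h; exact Or.inl ⟨z, h, rfl⟩

theorem mem_jn_odd {A B : Set MM} {z : MM} : 2 * z + 1 ∈ jn A B ↔ z ∈ B := by
  constructor
  · rintro (⟨w, hw, h⟩ | ⟨w, hw, h⟩)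
    · exact absurd h.symm par
    · rw [odd_inj h]; exact hw
  · intro h; exact Or.inr ⟨z, h, rfl⟩

theorem mem_omega {z : MM} : z ∈ omega MM ↔ ¬ Infl z := by
  rw [not_infl_iff]
  constructor
  · rintro ⟨n, h⟩; exact ⟨n, h.symm⟩
  · rintro ⟨n, h⟩; exact ⟨n, h.symm⟩

theorem parity (x : MM) : (∃ z, x = 2 * z) ∨ ∃ z, x = 2 * z + 1 := by
  obtain ⟨f, hf, rfl⟩ := exists_mk x
  have hb : Bdd (fun n => f n / 2) :=
    bdd_of_le hf (Eventually.of_forall fun n => Nat.div_le_self _ _)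
  have : ∀ᶠ n in (UU : Filter ℕ), f n % 2 = 0 ∨ f n % 2 = 1 :=
    Eventually.of_forall fun n => by omega
  rcases eventually_or'.1 this with h | h
  · left
    refine ⟨mk _ hb, ?_⟩
    rw [two_mk, mk_mul, mk_eq]
    filter_upwards [h] with n hn
    omega
  · right
    refine ⟨mk _ hb, ?_⟩
    rw [two_mk, mk_mul, mk_one, mk_add, mk_eq]
    filter_upwards [h] with n hn
    omega

theorem t2 {m : ℕ} {f : (Fin m → MM) → MM} (h : IsTerm f) : IsTerm (fun v => 2 * f v) :=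
  (IsTerm.param 2).mul h

theorem t21 {m : ℕ} {f : (Fin m → MM) → MM} (h : IsTerm f) : IsTerm (fun v => 2 * f v + 1) :=
  (t2 h).add (IsTerm.param 1)

/-- the literals used by `p` and `q` -/
theorem exists_lits (p q : MM) : ∃ F : MM, (∀ z, Mem (2 * z + 1) F ↔ Mem (2 * z) p) ∧
    ∀ z, Mem (2 * z) F ↔ Mem (2 * z) q := by
  have hi : Int1 (fun u : MM => (∃ z, z ≤ u ∧ (u = 2 * z + 1 ∧ Mem (2 * z) p)) ∨
      ∃ z, z ≤ u ∧ (u = 2 * z ∧ Mem (2 * z) q)) := by
    refine Int1.of_delta0 ?_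
    refine IsDelta0.or ?_ ?_
    · refine IsDelta0.ex (IsTerm.var 0) ?_
      exact (IsDelta0.eq (IsTerm.var 1) (t21 (IsTerm.var 0))).and
        (IsDelta0.mem (t2 (IsTerm.var 0)) (IsTerm.param p))
    · refine IsDelta0.ex (IsTerm.var 0) ?_
      exact (IsDelta0.eq (IsTerm.var 1) (t2 (IsTerm.var 0))).and
        (IsDelta0.mem (t2 (IsTerm.var 0)) (IsTerm.param q))
  obtain ⟨F, -, hF⟩ := hi.code (p + q + 2)
  refine ⟨F, fun z => ?_, fun z => ?_⟩
  · rw [hF]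
    constructor
    · rintro ⟨-, ⟨w, -, h1, h2⟩ | ⟨w, -, h1, h2⟩⟩
      · rw [odd_inj h1]; exact h2
      · exact absurd h1.symm par
    · intro h
      refine ⟨?_, Or.inl ⟨z, ?_, rfl, h⟩⟩
      · have h1 := mem_lt h
        have h3 : 2 * z + 1 ≤ p := (PAExp.discrete _ _).1 h1
        refine lt_of_le_of_lt (h3.trans (le_add_right' p q)) ?_
        rw [show (p + q + 2 : MM) = (p + q + 1) + 1 by ring]
        exact (PAExp.discrete _ _).2 (PAExp.add_le_add' _ _ 1 (le_add_right' _ _))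
      · exact (le_two z).trans (le_add_right' _ _)
  · rw [hF]
    constructor
    · rintro ⟨-, ⟨w, -, h1, h2⟩ | ⟨w, -, h1, h2⟩⟩
      · exact absurd h1 par
      · rw [two_inj h1]; exact h2
    · intro h
      refine ⟨?_, Or.inr ⟨z, le_two z, rfl, h⟩⟩
      have h1 := mem_lt h
      refine lt_of_lt_of_le h1 ?_
      rw [add_assoc]
      exact (le_add_right' q 2).trans (le_add_left' _ _)

/-- the standard elements of an internal set are bounded -/
theorem bound_std (p : MM) (h : ∀ z, Mem (2 * z + 1) p → ¬ Infl z) :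
    ∃ k : ℕ, ∀ z, Mem (2 * z + 1) p → z ≤ (k : MM) := by
  have hi : Int1 (fun y : MM => ∀ z, z ≤ p → (Mem (2 * z + 1) p → z ≤ y)) := by
    refine Int1.of_delta0 ?_
    refine IsDelta0.all (IsTerm.param p) ?_
    exact (IsDelta0.mem (t21 (IsTerm.var 0)) (IsTerm.param p)).imp
      (IsDelta0.le (IsTerm.var 0) (IsTerm.var 1))
  obtain ⟨y, hy, hmin⟩ := hi.least ⟨p, fun z hz _ => hz⟩
  have hmem : ∀ z, Mem (2 * z + 1) p → z ≤ p := fun z hz =>
    ((le_two z).trans (le_add_right' _ _)).trans (mem_lt hz).le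
  by_cases hinf : Infl y
  · exfalso
    obtain ⟨x, hx⟩ := PAExp.exists_add 1 y ((by
      have := hinf 1; rw [Nat.cast_one] at this; exact this.le))
    have hlt : x < y := by rw [← hx, add_comm]; exact (PAExp.discrete _ _).2 le_rfl
    refine absurd (hmin x fun z hz hm => ?_) (not_le.2 hlt)
    by_contra hc
    rw [not_le] at hc
    refine h z hm fun n => ?_
    have h1 := hinf (n + 1)
    rw [Nat.cast_succ, ← hx, add_comm 1 x] at h1
    have h2 : (n : MM) ≤ x := by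
      by_contra h3
      rw [not_le] at h3
      have := PAExp.add_le_add' _ _ 1 h3.le
      exact absurd h1 (not_lt.2 this)
    exact lt_of_le_of_lt h2 hc
  · obtain ⟨k, rfl⟩ := not_infl_iff.1 hinf
    exact ⟨k, fun z hz => hy z (hmem z hz) hz⟩

/-- the infinite elements of an internal set are bounded below by an infinite element -/
theorem bound_inf (q : MM) (h : ∀ z, Mem (2 * z + 1) q → Infl z) :
    ∃ y, Infl y ∧ ∀ z, Mem (2 * z + 1) q → y ≤ z := by
  have hi : Int1 (fun y : MM => ∀ z, z ≤ q → (Mem (2 * z + 1) q → y ≤ z)) := by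
    refine Int1.of_delta0 ?_
    refine IsDelta0.all (IsTerm.param q) ?_
    exact (IsDelta0.mem (t21 (IsTerm.var 0)) (IsTerm.param q)).imp
      (IsDelta0.le (IsTerm.var 1) (IsTerm.var 0))
  obtain ⟨y, hy, h2⟩ := hi.overspill fun n z _ hm => (h z hm n).le
  refine ⟨y, hy, fun z hz => h2 y le_rfl z ?_ hz⟩
  exact ((le_two z).trans (le_add_right' _ _)).trans (mem_lt hz).le

theorem derJoin : DerJoin := by
  refine ⟨fun A B ⟨Φ, hΦ, h⟩ => ?_, ?_⟩
  · obtain ⟨φ, hφ, h2⟩ := Sig1.of_isSigma hΦ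
    refine ⟨φ, hφ, fun K i hi => ?_⟩
    rw [h K i hi]
    refine exists_congr fun p => exists_congr fun q => and_congr_left fun _ => ?_
    exact h2 _
  · rintro φ A B ⟨hφ, h⟩ t
    constructor
    · rintro ⟨K, i, rfl, hi, hK⟩
      obtain ⟨p, q, ⟨w, hw⟩, hp, hq⟩ := (h K i hi).1 hK
      obtain ⟨F, hF1, hF2⟩ := exists_lits p q
      have hps : ∀ z, Mem (2 * z + 1) p → ¬ Infl z := fun z hz =>
        mem_omega.1 (mem_jn_odd.1 (hp hz))
      have hqs : ∀ z, Mem (2 * z + 1) q → Infl z := fun z hz => by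
        by_contra hc
        exact hq hz (mem_jn_odd.2 (mem_omega.2 hc))
      obtain ⟨k, hk⟩ := bound_std p hps
      obtain ⟨y, hy, hyq⟩ := bound_inf q hqs
      obtain ⟨l1, e1⟩ := exists_le_aa K
      obtain ⟨l2, e2⟩ := exists_le_aa i
      obtain ⟨l3, e3⟩ := exists_le_aa p
      obtain ⟨l4, e4⟩ := exists_le_aa q
      obtain ⟨l5, e5⟩ := exists_le_aa w
      obtain ⟨l6, e6⟩ := exists_le_aa F
      have hl : ∃ l, l1 ≤ l ∧ l2 ≤ l ∧ l3 ≤ l ∧ l4 ≤ l ∧ l5 ≤ l ∧ l6 ≤ l ∧ k ≤ l :=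
        ⟨l1 + l2 + l3 + l4 + l5 + l6 + k, by omega, by omega, by omega, by omega, by omega,
          by omega, by omega⟩
      obtain ⟨l, m1, m2, m3, m4, m5, m6, m7⟩ := hl
      refine ⟨l, y, F, hy, fun z => ⟨fun hz => ?_, fun hz => ?_⟩, e6 l m6, K, e1 l m1, i,
        e2 l m2, p, e3 l m3, q, e4 l m4, w, e5 l m5, rfl, hi, hw, ?_, ?_⟩
      · exact mem_jn_even.1 (hp ((hF1 z).1 hz))
      · exact fun hc => hq ((hF2 z).1 hz) (mem_jn_even.2 hc)
      · intro x _ hx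
        rcases parity x with ⟨z, rfl⟩ | ⟨z, rfl⟩
        · exact ⟨z, le_two z, Or.inl ⟨rfl, (hF1 z).2 hx⟩⟩
        · exact ⟨z, (le_two z).trans (le_add_right' _ _), Or.inr ⟨rfl, (hk z hx).trans
            (natCast_le.2 m7)⟩⟩
      · intro x _ hx
        rcases parity x with ⟨z, rfl⟩ | ⟨z, rfl⟩
        · exact ⟨z, le_two z, Or.inl ⟨rfl, (hF2 z).2 hx⟩⟩
        · exact ⟨z, (le_two z).trans (le_add_right' _ _), Or.inr ⟨rfl, hyq z hx⟩⟩
    · rintro ⟨l, y, F, hy, hT, -, K, -, i, -, P, -, Q, -, w, -, rfl, hi, hw, hP, hQ⟩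
      refine ⟨K, i, rfl, hi, (h K i hi).2 ⟨P, Q, ⟨w, hw⟩, fun x hx => ?_, fun x hx => ?_⟩⟩
      · obtain ⟨z, -, ⟨rfl, hz⟩ | ⟨rfl, hz⟩⟩ := hP x (mem_lt hx).le hx
        · exact mem_jn_even.2 ((hT z).1 hz)
        · refine mem_jn_odd.2 (mem_omega.2 fun hc => ?_)
          exact absurd (hc l) (not_lt.2 hz)
      · obtain ⟨z, -, ⟨rfl, hz⟩ | ⟨rfl, hz⟩⟩ := hQ x (mem_lt hx).le hx
        · exact fun hc => (hT z).2 hz (mem_jn_even.1 hc)
        · intro hc
          exact mem_omega.1 (mem_jn_odd.1 hc) fun n => lt_of_lt_of_le (hy n) hz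

end Pool.Agent.BSig.H92
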